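import Mathlib

/-!
# The Vietoris-Rips shadow of a compact set need not be an ANR

We build a countable compact set `M` in `ℝ³` whose Vietoris-Rips complex at scale `1` has a shadow
which is not an absolute neighbourhood retract.
-/

open Set Topology Filter TopologicalSpace

namespace Pool.Agent.Results.MP_68dc86_gt.ShadowNotANR

/-- The strict Vietoris-Rips complex of `M` at scale `β`: its simplices are the nonempty finite
subsets of `M` of diameter less than `β`. -/
def vrComplex {N : ℕ} (M : Set (EuclideanSpace ℝ (Fin N))) (β : ℝ) :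
    Set (Finset (EuclideanSpace ℝ (Fin N))) :=
  {σ | σ.Nonempty ∧ (σ : Set (EuclideanSpace ℝ (Fin N))) ⊆ M ∧
    Metric.diam (σ : Set (EuclideanSpace ℝ (Fin N))) < β}

/-- The shadow of a simplicial complex with vertices in `ℝ^N`: the union of the convex hulls of its
simplices. -/
def shadow {N : ℕ} (K : Set (Finset (EuclideanSpace ℝ (Fin N)))) :
    Set (EuclideanSpace ℝ (Fin N)) :=
  ⋃ σ ∈ K, convexHull ℝ (σ : Set (EuclideanSpace ℝ (Fin N)))

/-- An absolute neighbourhood retract: a metrizable space `Y` such that, whenever `Y` is embedded as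
a closed subset of a metrizable space `Z`, some neighbourhood `U` of (the image of) `Y` in `Z`
retracts onto `Y`. -/
def IsANR (Y : Type) [TopologicalSpace Y] : Prop :=
  MetrizableSpace Y ∧
    ∀ (Z : Type) [TopologicalSpace Z] [MetrizableSpace Z] (e : Y → Z), IsClosedEmbedding e →
      ∃ U : Set Z, IsOpen U ∧ range e ⊆ U ∧ ∃ r : U → Y, Continuous r ∧
        ∀ (y : Y) (hy : e y ∈ U), r ⟨e y, hy⟩ = y

/-- A shorthand for `ℝ³`. -/
abbrev E3 : Type := EuclideanSpace ℝ (Fin 3)

/-- A point of `ℝ³` from its coordinates. -/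
noncomputable def pt (x y z : ℝ) : E3 := !₂[x, y, z]

@[simp] lemma pt_zero (x y z : ℝ) : pt x y z 0 = x := by simp [pt]
@[simp] lemma pt_one (x y z : ℝ) : pt x y z 1 = y := by simp [pt]
@[simp] lemma pt_two (x y z : ℝ) : pt x y z 2 = z := by simp [pt]

lemma dist_sq (p q : E3) :
    dist p q ^ 2 = (p 0 - q 0) ^ 2 + (p 1 - q 1) ^ 2 + (p 2 - q 2) ^ 2 := by
  rw [EuclideanSpace.dist_eq, Real.sq_sqrt (by positivity), Fin.sum_univ_three]
  simp [Real.dist_eq, sq_abs]

/-- The points near `(-1/2,0,0)`. -/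
noncomputable def ap (t : ℝ) : E3 := pt (-1 / 2 + t ^ 2 / 100) 0 t
/-- The points near `(1/2,0,0)`. -/
noncomputable def bp (t : ℝ) : E3 := pt (1 / 2 - t ^ 2 / 100) 0 t
/-- The lower apex. -/
noncomputable def sp : E3 := pt 0 (-1 / 20) 0
/-- The upper apex. -/
noncomputable def sp' : E3 := pt 0 (9 / 10) 0

/-- The heights. -/
noncomputable def tn (n : ℕ) : ℝ := (1 / 2) ^ (n + 3)

lemma tn_pos (n : ℕ) : 0 < tn n := by unfold tn; positivity
lemma tn_le (n : ℕ) : tn n ≤ 1 / 8 := by
  unfold tn
  rw [pow_add]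
  have : ((1 : ℝ) / 2) ^ n ≤ 1 := pow_le_one₀ (by norm_num) (by norm_num)
  nlinarith
lemma tn_succ_le {m n : ℕ} (h : m < n) : tn n ≤ tn m / 2 := by
  unfold tn
  have h1 : ((1 : ℝ) / 2) ^ (n + 3) ≤ (1 / 2) ^ (m + 3 + 1) :=
    pow_le_pow_of_le_one (by norm_num) (by norm_num) (by omega)
  rw [pow_succ _ (m + 3)] at h1
  linarith
lemma tn_tendsto : Tendsto tn atTop (𝓝 0) := by
  have := (tendsto_pow_atTop_nhds_zero_of_lt_one (r := (1 / 2 : ℝ)) (by norm_num)
    (by norm_num)).comp (tendsto_add_atTop_nat 3)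
  exact this

/-- The set of parameters. -/
noncomputable def K : Set ℝ := insert 0 (range tn)

lemma K_compact : IsCompact K := tn_tendsto.isCompact_insert_range

lemma K_bound {t : ℝ} (h : t ∈ K) : 0 ≤ t ∧ t ≤ 1 / 8 := by
  rcases h with h | ⟨n, rfl⟩
  · rw [h]; norm_num
  · exact ⟨(tn_pos n).le, tn_le n⟩

/-- Distinct parameters differ by at least half the larger one. -/
lemma K_gap {t u : ℝ} (ht : t ∈ K) (hu : u ∈ K) (hne : t ≠ u) :
    (t ^ 2 + u ^ 2) / 8 ≤ (t - u) ^ 2 := by
  have key : ∀ {a b : ℝ}, 0 ≤ b → b ≤ a / 2 → (a ^ 2 + b ^ 2) / 8 ≤ (a - b) ^ 2 := by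
    intro a b hb hab
    nlinarith [mul_nonneg hb hb, mul_nonneg hb (by linarith : 0 ≤ a / 2 - b),
      mul_nonneg (by linarith : 0 ≤ a / 2 - b) (by linarith : 0 ≤ a / 2 - b)]
  rcases ht with ht | ⟨m, rfl⟩ <;> rcases hu with hu | ⟨n, rfl⟩
  · exact absurd (ht.trans hu.symm) hne
  · rw [ht]; nlinarith [tn_pos n]
  · rw [hu]; nlinarith [tn_pos m]
  · rcases lt_trichotomy m n with h | h | h
    · exact key (tn_pos n).le (tn_succ_le h)
    · exact absurd (by rw [h]) hne
    · have := key (tn_pos m).le (tn_succ_le h)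
      nlinarith

/-- The compact set. -/
noncomputable def M : Set E3 := {sp, sp'} ∪ (ap '' K ∪ bp '' K)

lemma continuous_pt {X : Type*} [TopologicalSpace X] {f g h : X → ℝ} (hf : Continuous f)
    (hg : Continuous g) (hh : Continuous h) : Continuous (fun x => pt (f x) (g x) (h x)) := by
  unfold pt
  refine (PiLp.continuous_toLp 2 _).comp ?_
  refine continuous_pi ?_
  intro i
  fin_cases i
  · exact hf
  · exact hg
  · exact hh

lemma M_compact : IsCompact M := by
  have h1 : Continuous ap := by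
    unfold ap; exact continuous_pt (by fun_prop) continuous_const continuous_id
  have h2 : Continuous bp := by
    unfold bp; exact continuous_pt (by fun_prop) continuous_const continuous_id
  refine IsCompact.union ?_ ((K_compact.image h1).union (K_compact.image h2))
  exact (Set.toFinite _).isCompact

lemma not_adj_ab {t u : ℝ} (ht : t ∈ K) (hu : u ∈ K) (h : dist (ap t) (bp u) < 1) :
    t = u ∧ 0 < t := by
  have h2 : dist (ap t) (bp u) ^ 2 < 1 := by
    have := dist_nonneg (x := ap t) (y := bp u); nlinarith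
  rw [dist_sq] at h2
  simp only [ap, bp, pt_zero, pt_one, pt_two] at h2
  by_cases hne : t = u
  · refine ⟨hne, ?_⟩
    rcases (K_bound ht).1.lt_or_eq with h0 | h0
    · exact h0
    · exfalso
      subst hne
      rw [← h0] at h2
      norm_num at h2
  · exfalso
    have h3 := K_gap ht hu hne
    have h4 := K_bound ht
    have h5 := K_bound hu
    nlinarith [sq_nonneg (t ^ 2 + u ^ 2), sq_nonneg t, sq_nonneg u]

lemma not_adj_sa {t : ℝ} (ht : t ∈ K) : ¬ dist sp' (ap t) < 1 := by
  intro h
  have h2 : dist sp' (ap t) ^ 2 < 1 := by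
    have := dist_nonneg (x := sp') (y := ap t); nlinarith
  rw [dist_sq] at h2
  simp only [ap, sp', pt_zero, pt_one, pt_two] at h2
  have h4 := K_bound ht
  nlinarith [sq_nonneg t, sq_nonneg (t ^ 2)]

lemma not_adj_sb {t : ℝ} (ht : t ∈ K) : ¬ dist sp' (bp t) < 1 := by
  intro h
  have h2 : dist sp' (bp t) ^ 2 < 1 := by
    have := dist_nonneg (x := sp') (y := bp t); nlinarith
  rw [dist_sq] at h2
  simp only [bp, sp', pt_zero, pt_one, pt_two] at h2
  have h4 := K_bound ht
  nlinarith [sq_nonneg t, sq_nonneg (t ^ 2)]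

/-- The shadow. -/
noncomputable def Y : Set E3 := shadow (vrComplex M 1)

lemma adj_of_mem {σ : Finset E3} (h : Metric.diam (σ : Set E3) < 1) {p q : E3} (hp : p ∈ σ)
    (hq : q ∈ σ) : dist p q < 1 :=
  lt_of_le_of_lt (Metric.dist_le_diam_of_mem σ.finite_toSet.isBounded hp hq) h

lemma seg_mem {p q : E3} (hp : p ∈ M) (hq : q ∈ M) (h : dist p q < 1) {x : E3}
    (hx : x ∈ segment ℝ p q) : x ∈ Y := by
  classical
  refine mem_iUnion₂.2 ⟨{p, q}, ⟨⟨p, by simp⟩, ?_, ?_⟩, ?_⟩
  · intro z hz
    simp only [Finset.coe_insert, Finset.coe_singleton, mem_insert_iff, mem_singleton_iff] at hz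
    rcases hz with rfl | rfl <;> assumption
  · rw [Finset.coe_insert, Finset.coe_singleton, Metric.diam_pair]; exact h
  · rw [Finset.coe_insert, Finset.coe_singleton, convexHull_pair]; exact hx

lemma zero_mem_Y : (0 : E3) ∈ Y := by
  refine seg_mem (p := sp) (q := sp') (by left; simp) (by left; simp) ?_ ?_
  · have h : dist sp sp' ^ 2 = (19 / 20) ^ 2 := by
      rw [dist_sq]; simp only [sp, sp', pt_zero, pt_one, pt_two]; norm_num
    have := dist_nonneg (x := sp) (y := sp')
    nlinarith
  · refine ⟨18 / 19, 1 / 19, by norm_num, by norm_num, by norm_num, ?_⟩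
    ext i
    fin_cases i
    · simp [sp, sp', pt]
    · simp [sp, sp', pt]; norm_num
    · simp [sp, sp', pt]

lemma xn_mem_Y (n : ℕ) : pt 0 0 (tn n) ∈ Y := by
  have hK : tn n ∈ K := Or.inr ⟨n, rfl⟩
  refine seg_mem (p := ap (tn n)) (q := bp (tn n)) (by right; left; exact ⟨_, hK, rfl⟩)
    (by right; right; exact ⟨_, hK, rfl⟩) ?_ ?_
  · have h : dist (ap (tn n)) (bp (tn n)) ^ 2 = (1 - (tn n) ^ 2 / 50) ^ 2 := by
      rw [dist_sq]; simp only [ap, bp, pt_zero, pt_one, pt_two]; ring
    have h1 := dist_nonneg (x := ap (tn n)) (y := bp (tn n))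
    have h2 := tn_pos n
    have h3 := tn_le n
    have h4 : 0 < (tn n) ^ 2 / 50 := by positivity
    have h5 : (tn n) ^ 2 / 50 < 1 := by nlinarith
    have h6 : dist (ap (tn n)) (bp (tn n)) = 1 - (tn n) ^ 2 / 50 := by
      refine (sq_eq_sq₀ h1 (by linarith)).1 h
    rw [h6]; linarith
  · refine ⟨1 / 2, 1 / 2, by norm_num, by norm_num, by norm_num, ?_⟩
    ext i
    fin_cases i
    · simp [ap, bp, pt]; ring
    · simp [ap, bp, pt]
    · simp [ap, bp, pt]; ring

lemma abs_coord_lt {y : E3} {ρ : ℝ} (h : dist y 0 < ρ) (i : Fin 3) : |y i| < ρ := by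
  refine lt_of_le_of_lt ?_ h
  rw [dist_zero_right]
  have := EuclideanSpace.norm_eq y
  have h2 : ‖y i‖ ≤ ‖y‖ := PiLp.norm_apply_le y i
  rwa [Real.norm_eq_abs] at h2

lemma convex_half (c : Fin 3 → ℝ) (d : ℝ) : Convex ℝ {z : E3 | d ≤ ∑ i, c i * z i} := by
  intro x hx y hy a b ha hb hab
  simp only [mem_ofPred_eq, PiLp.add_apply, PiLp.smul_apply, smul_eq_mul] at hx hy ⊢
  have : ∑ i, c i * (a * x i + b * y i) = a * ∑ i, c i * x i + b * ∑ i, c i * y i := by
    rw [Finset.mul_sum, Finset.mul_sum, ← Finset.sum_add_distrib]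
    exact Finset.sum_congr rfl (fun i _ => by ring)
  rw [this]
  have h1 := mul_le_mul_of_nonneg_left hx ha
  have h2 := mul_le_mul_of_nonneg_left hy hb
  have h3 : a * d + b * d = d := by rw [← add_mul, hab, one_mul]
  linarith

/-- Points of the shadow near the origin have a third coordinate outside certain gaps. -/
lemma gap (n : ℕ) {y : E3} (hy : y ∈ Y) (hd : dist y 0 < 1 / 100) : y 2 ≠ 3 / 4 * tn n := by
  have hn := tn_pos n
  have c0 := abs_lt.1 (abs_coord_lt hd 0)
  have c1 := abs_lt.1 (abs_coord_lt hd 1)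
  obtain ⟨σ, ⟨-, hσM, hσd⟩, hyσ⟩ := mem_iUnion₂.1 hy
  by_cases hs' : sp' ∈ σ
  · -- only the two apexes
    have hsub : (σ : Set E3) ⊆ {z : E3 | 0 ≤ ∑ i, (![0, 0, 1] : Fin 3 → ℝ) i * z i} ∩
        {z : E3 | 0 ≤ ∑ i, (![0, 0, -1] : Fin 3 → ℝ) i * z i} := by
      intro z hz
      have hz2 : z 2 = 0 := by
        rcases hσM hz with h | ⟨t, ht, rfl⟩ | ⟨t, ht, rfl⟩
        · simp only [mem_insert_iff, mem_singleton_iff] at h
          rcases h with rfl | rfl <;> simp [sp, sp']
        · exact absurd (adj_of_mem hσd hs' hz) (not_adj_sa ht)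
        · exact absurd (adj_of_mem hσd hs' hz) (not_adj_sb ht)
      constructor <;> simp [Fin.sum_univ_three, hz2]
    have := convexHull_min hsub ((convex_half _ _).inter (convex_half _ _)) hyσ
    simp only [mem_inter_iff, mem_ofPred_eq, Fin.sum_univ_three] at this
    simp at this
    intro h
    linarith [this.1, this.2]
  · by_cases hA : ∃ t ∈ K, ap t ∈ σ
    · by_cases hB : ∃ u ∈ K, bp u ∈ σ
      · obtain ⟨t, ht, hat⟩ := hA
        obtain ⟨u, hu, hbu⟩ := hB
        obtain ⟨rfl, ht0⟩ := not_adj_ab ht hu (adj_of_mem hσd hat hbu)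
        -- all points satisfy an affine relation
        have hsub : (σ : Set E3) ⊆ {z : E3 | t ≤ ∑ i, (![0, -20 * t, 1] : Fin 3 → ℝ) i * z i} ∩
            {z : E3 | -t ≤ ∑ i, (![0, 20 * t, -1] : Fin 3 → ℝ) i * z i} := by
          intro z hz
          have hz2 : z 2 = t * (1 + 20 * z 1) := by
            rcases hσM hz with h | ⟨v, hv, rfl⟩ | ⟨v, hv, rfl⟩
            · simp only [mem_insert_iff, mem_singleton_iff] at h
              rcases h with rfl | rfl
              · simp [sp]; norm_num
              · exact absurd hz hs'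
            · have := (not_adj_ab hv ht (adj_of_mem hσd hz hbu)).1
              rw [this]; simp [ap]
            · have := (not_adj_ab ht hv (adj_of_mem hσd hat hz)).1
              rw [← this]; simp [bp]
          constructor
          · simp [Fin.sum_univ_three]; rw [hz2]; linarith
          · simp [Fin.sum_univ_three]; rw [hz2]; linarith
        have := convexHull_min hsub ((convex_half _ _).inter (convex_half _ _)) hyσ
        simp only [mem_inter_iff, mem_ofPred_eq, Fin.sum_univ_three] at this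
        simp at this
        have hy2 : y 2 = t * (1 + 20 * y 1) := by linarith [this.1, this.2]
        have h1 : t * (4 / 5) < y 2 := by
          rw [hy2]; exact mul_lt_mul_of_pos_left (by linarith [c1.1]) ht0
        have h2 : y 2 < t * (6 / 5) := by
          rw [hy2]; exact mul_lt_mul_of_pos_left (by linarith [c1.2]) ht0
        intro h
        rcases ht with ht | ⟨m, rfl⟩
        · exact absurd ht ht0.ne'
        · rcases lt_or_ge n m with hm | hm
          · have := tn_succ_le hm
            rw [h] at h1 h2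
            linarith
          · rcases hm.lt_or_eq with hm | hm
            · have := tn_succ_le hm
              rw [h] at h1 h2
              linarith
            · rw [h, hm] at h1 h2
              linarith
      · -- no `b`
        exfalso
        have hsub : (σ : Set E3) ⊆
            {z : E3 | 1 / 20 ≤ ∑ i, (![-1, -1, 0] : Fin 3 → ℝ) i * z i} := by
          intro z hz
          rcases hσM hz with h | ⟨v, hv, rfl⟩ | ⟨v, hv, rfl⟩
          · simp only [mem_insert_iff, mem_singleton_iff] at h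
            rcases h with rfl | rfl
            · simp [Fin.sum_univ_three, sp]; norm_num
            · exact absurd hz hs'
          · have := K_bound hv
            simp [Fin.sum_univ_three, ap]
            nlinarith
          · exact absurd ⟨v, hv, hz⟩ hB
        have := convexHull_min hsub (convex_half _ _) hyσ
        simp only [mem_ofPred_eq, Fin.sum_univ_three] at this
        simp at this
        linarith [c0.1, c1.1]
    · exfalso
      have hsub : (σ : Set E3) ⊆
          {z : E3 | 1 / 20 ≤ ∑ i, (![1, -1, 0] : Fin 3 → ℝ) i * z i} := by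
        intro z hz
        rcases hσM hz with h | ⟨v, hv, rfl⟩ | ⟨v, hv, rfl⟩
        · simp only [mem_insert_iff, mem_singleton_iff] at h
          rcases h with rfl | rfl
          · simp [Fin.sum_univ_three, sp]; norm_num
          · exact absurd hz hs'
        · exact absurd ⟨v, hv, hz⟩ hA
        · have := K_bound hv
          simp [Fin.sum_univ_three, bp]
          nlinarith
      have := convexHull_min hsub (convex_half _ _) hyσ
      simp only [mem_ofPred_eq, Fin.sum_univ_three] at this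
      simp at this
      linarith [c0.2, c1.1]

/-- The ambient metrizable space in which `Y` sits as a closed set: `Y` on the floor, all of `ℝ³`
above it. -/
noncomputable def Z : Set (E3 × ℝ) := {p | 0 < p.2 ∨ (p.2 = 0 ∧ p.1 ∈ Y)}

/-- The closed embedding. -/
noncomputable def e (y : Y) : Z := ⟨(y.1, 0), Or.inr ⟨rfl, y.2⟩⟩

lemma e_closed : IsClosedEmbedding e := by
  have hcont : Continuous e := by
    unfold e
    exact Continuous.subtype_mk (by fun_prop) _
  refine ⟨⟨?_, ?_⟩, ?_⟩
  · -- inducing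
    have h1 : IsInducing (fun y : Y => (y.1 : E3)) := IsInducing.subtypeVal
    have h2 : (fun y : Y => (y.1 : E3)) = (fun z : Z => z.1.1) ∘ e := rfl
    rw [h2] at h1
    exact IsInducing.of_comp hcont (by fun_prop) h1
  · intro a b h
    have : (e a).1.1 = (e b).1.1 := by rw [h]
    exact Subtype.ext this
  · have : range e = {z : Z | z.1.2 = 0} := by
      ext z
      constructor
      · rintro ⟨y, rfl⟩; rfl
      · intro hz
        rcases z with ⟨⟨p, q⟩, hpq⟩
        simp only [mem_ofPred_eq] at hz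
        subst hz
        rcases hpq with h | ⟨_, h⟩
        · exact absurd h (lt_irrefl _)
        · exact ⟨⟨p, h⟩, rfl⟩
    rw [this]
    exact isClosed_eq (by fun_prop) continuous_const

theorem not_anr : ¬ IsANR Y := by
  rintro ⟨-, hanr⟩
  obtain ⟨U, hUo, hYU, r, hr, hret⟩ := hanr Z e e_closed
  have hmemU : ∀ y : Y, e y ∈ U := fun y => hYU ⟨y, rfl⟩
  set y0 : Y := ⟨0, zero_mem_Y⟩ with hy0
  -- a neighbourhood in `U` mapped near the origin
  have h1 : ∀ᶠ u : U in 𝓝 ⟨e y0, hmemU y0⟩, dist (r u).1 0 < 1 / 100 := by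
    have hc : ContinuousAt (fun u : U => dist (r u).1 0) ⟨e y0, hmemU y0⟩ :=
      (by fun_prop : Continuous fun u : U => dist (r u).1 0).continuousAt
    refine hc.eventually_lt continuousAt_const ?_
    change dist (r ⟨e y0, hmemU y0⟩).1 0 < 1 / 100
    rw [hret y0 (hmemU y0)]
    simp [hy0]
  have h2 : ∃ V ∈ 𝓝 (e y0), ∀ z ∈ V, ∃ hz : z ∈ U, dist (r ⟨z, hz⟩).1 0 < 1 / 100 := by
    have hUn : U ∈ 𝓝 (e y0) := hUo.mem_nhds (hmemU y0)
    rw [nhds_subtype_eq_comap] at h1
    obtain ⟨V, hV, hVs⟩ := h1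
    refine ⟨V ∩ U, inter_mem hV hUn, fun z hz => ⟨hz.2, ?_⟩⟩
    exact hVs (show (⟨z, hz.2⟩ : U) ∈ Subtype.val ⁻¹' V from hz.1)
  obtain ⟨V, hV, hVs⟩ := h2
  obtain ⟨δ, hδ, hball⟩ := Metric.mem_nhds_iff.1 hV
  -- choose `n` with `tn n < δ`
  obtain ⟨n, hn⟩ : ∃ n, tn n < δ := (tn_tendsto.eventually (gt_mem_nhds hδ)).exists
  have hn0 := tn_pos n
  -- the path
  have hmemZ : ∀ τ : unitInterval, (pt 0 0 ((1 - (τ : ℝ)) * tn n), (τ : ℝ) * (1 - τ) * tn n) ∈ Z := by
    intro τ
    have h0 := τ.2.1
    have h1 := τ.2.2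
    rcases h0.eq_or_lt with h | h
    · right
      refine ⟨by simp [← h], ?_⟩
      simp only [← h]
      simpa using xn_mem_Y n
    · rcases h1.eq_or_lt with h' | h'
      · right
        refine ⟨by simp [h'], ?_⟩
        simp only [h']
        have : pt 0 0 ((1 - 1) * tn n) = 0 := by
          ext i; fin_cases i <;> simp [pt]
        simp only [this]
        exact zero_mem_Y
      · left
        have : 0 < 1 - (τ : ℝ) := by linarith
        positivity
  let γ : unitInterval → Z := fun τ => ⟨_, hmemZ τ⟩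
  have hγ : Continuous γ := by
    refine Continuous.subtype_mk ?_ _
    refine Continuous.prodMk ?_ (by fun_prop)
    exact continuous_pt continuous_const continuous_const (by fun_prop)
  have hγV : ∀ τ, γ τ ∈ V := by
    intro τ
    apply hball
    rw [Metric.mem_ball]
    have h0 := τ.2.1
    have h1 := τ.2.2
    change dist ((pt 0 0 ((1 - (τ : ℝ)) * tn n), (τ : ℝ) * (1 - τ) * tn n) : E3 × ℝ)
      ((0 : E3), (0 : ℝ)) < δ
    rw [Prod.dist_eq, max_lt_iff]
    constructor
    · have : dist (pt 0 0 ((1 - (τ : ℝ)) * tn n)) 0 ^ 2 = ((1 - (τ : ℝ)) * tn n) ^ 2 := by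
        rw [dist_sq]; simp
      have h3 : 0 ≤ (1 - (τ : ℝ)) * tn n := mul_nonneg (by linarith) hn0.le
      have h4 := (sq_eq_sq₀ dist_nonneg h3).1 this
      simp only
      rw [h4]
      nlinarith
    · simp only [dist_zero_right, Real.norm_eq_abs]
      have h3 : 0 ≤ (τ : ℝ) * (1 - τ) * tn n :=
        mul_nonneg (mul_nonneg h0 (by linarith)) hn0.le
      rw [abs_of_nonneg h3]
      have : (τ : ℝ) * (1 - τ) ≤ 1 := by nlinarith
      nlinarith
  have hγU : ∀ τ, γ τ ∈ U := fun τ => (hVs _ (hγV τ)).1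
  -- the retracted path, third coordinate
  let f : unitInterval → ℝ := fun τ => (r ⟨γ τ, hγU τ⟩).1 2
  have hf : Continuous f := by
    have : Continuous (fun τ => (⟨γ τ, hγU τ⟩ : U)) := Continuous.subtype_mk hγ _
    have h' : Continuous (fun τ => (r ⟨γ τ, hγU τ⟩).1) :=
      continuous_subtype_val.comp (hr.comp this)
    exact (PiLp.continuous_apply 2 (fun _ : Fin 3 => ℝ) 2).comp h'
  have hf0 : f 0 = tn n := by
    have : γ 0 = e ⟨pt 0 0 (tn n), xn_mem_Y n⟩ := by
      apply Subtype.ext
      simp [γ, e]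
    have h3 : r ⟨γ 0, hγU 0⟩ = ⟨pt 0 0 (tn n), xn_mem_Y n⟩ := by
      have h4 := hret ⟨pt 0 0 (tn n), xn_mem_Y n⟩ (hmemU _)
      rw [← h4]
      congr 1
      exact Subtype.ext this
    simp only [f, h3]
    simp
  have hf1 : f 1 = 0 := by
    have h00 : pt 0 0 ((1 - 1) * tn n) = 0 := by
      ext i; fin_cases i <;> simp [pt]
    have : γ 1 = e y0 := by
      apply Subtype.ext
      simp only [γ, e, hy0]
      refine Prod.ext ?_ ?_
      · simpa using h00
      · simp
    have h3 : r ⟨γ 1, hγU 1⟩ = y0 := by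
      have h4 := hret y0 (hmemU _)
      rw [← h4]
      congr 1
      exact Subtype.ext this
    simp only [f, h3]
    simp [hy0]
  have hiv : 3 / 4 * tn n ∈ Icc (f 1) (f 0) := by
    rw [hf0, hf1]
    constructor <;> nlinarith
  obtain ⟨τ, -, hτ⟩ := intermediate_value_Icc' (α := unitInterval) (show (0 : unitInterval) ≤ 1 from zero_le_one)
    hf.continuousOn hiv
  exact gap n (r ⟨γ τ, hγU τ⟩).2 (hVs _ (hγV τ)).2 hτ

/-- There are a nonempty compact `M ⊂ ℝ³` and a scale `β > 0` such that the shadow of the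
Vietoris-Rips complex of `M` at scale `β` is not an ANR. -/
theorem result : ∃ (N : ℕ) (M : Set (EuclideanSpace ℝ (Fin N))) (β : ℝ), 1 ≤ N ∧ M.Nonempty ∧
    IsCompact M ∧ 0 < β ∧ ¬ IsANR (shadow (vrComplex M β)) :=
  ⟨3, M, 1, by norm_num, ⟨sp, by left; simp⟩, M_compact, one_pos, not_anr⟩

end Pool.Agent.Results.MP_68dc86_gt.ShadowNotANR
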